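import Mathlib

/-!
# Classes of group representations definable by formulas of action

For every nontrivial ring `K` there is an abstract class of representations over `K` which is
axiomatizable, saturated and right hereditary, but which is not defined by any set of formulas of
action.  The class consists of the representations `(V, G)` with a nonzero `G`-fixed vector.
-/

universe u v w

namespace Pool.Agent.Results.MP_98e941_al.NotActionDefinable

/-- A representation `(V, G)` over `K`: a `K`-module `V` and a group `G` acting on `V` (on the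
right) by `K`-module automorphisms; `act v g` is `v ∘ g`. -/
structure Representation (K : Type u) [Ring K] where
  /-- the module -/
  V : Type u
  /-- the group -/
  G : Type u
  [instAddCommGroup : AddCommGroup V]
  [instModule : Module K V]
  [instGroup : Group G]
  /-- the action `v ∘ g` -/
  act : V → G → V
  act_one : ∀ v, act v 1 = v
  act_mul : ∀ v g h, act v (g * h) = act (act v g) h
  act_add : ∀ v v' g, act (v + v') g = act v g + act v' g
  act_smul : ∀ (k : K) v g, act (k • v) g = k • act v g

attribute [instance] Representation.instAddCommGroup Representation.instModule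
  Representation.instGroup

variable {K : Type u} [Ring K]

namespace Representation

/-- The kernel of the action. -/
def kernel (ρ : Representation K) : Subgroup ρ.G where
  carrier := {g | ∀ v, ρ.act v g = v}
  one_mem' := ρ.act_one
  mul_mem' := by
    intro a b ha hb v
    rw [ρ.act_mul, ha, hb]
  inv_mem' := by
    intro a ha v
    have h := ρ.act_mul v a a⁻¹
    rw [mul_inv_cancel, ρ.act_one, ha v] at h
    exact h.symm

lemma mem_kernel {ρ : Representation K} {g : ρ.G} : g ∈ ρ.kernel ↔ ∀ v, ρ.act v g = v := Iff.rfl

lemma act_inv_act (ρ : Representation K) (v : ρ.V) (g : ρ.G) : ρ.act (ρ.act v g) g⁻¹ = v := by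
  rw [← ρ.act_mul, mul_inv_cancel, ρ.act_one]

instance (ρ : Representation K) : ρ.kernel.Normal where
  conj_mem := by
    intro n hn g v
    rw [ρ.act_mul, ρ.act_mul, hn, ρ.act_inv_act]

/-- The faithful representation `(V, G/N)` of `(V, G)`, where `N` is the kernel of the action. -/
def faithful (ρ : Representation K) : Representation K where
  V := ρ.V
  G := ρ.G ⧸ ρ.kernel
  act v := fun g => Quotient.liftOn' g (fun g => ρ.act v g) (by
    intro a b hab
    rw [QuotientGroup.leftRel_apply] at hab
    have h : b = a * (a⁻¹ * b) := by group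
    change ρ.act v a = ρ.act v b
    rw [h, ρ.act_mul, hab])
  act_one v := ρ.act_one v
  act_mul v g h := by
    induction g using QuotientGroup.induction_on with | H g =>
    induction h using QuotientGroup.induction_on with | H h =>
    exact ρ.act_mul v g h
  act_add v v' g := by
    induction g using QuotientGroup.induction_on with | H g =>
    exact ρ.act_add v v' g
  act_smul k v g := by
    induction g using QuotientGroup.induction_on with | H g =>
    exact ρ.act_smul k v g

/-- The subrepresentation `(V, H)` for a subgroup `H ≤ G`. -/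
def restrict (ρ : Representation K) (H : Subgroup ρ.G) : Representation K where
  V := ρ.V
  G := H
  act v h := ρ.act v h
  act_one v := ρ.act_one v
  act_mul v g h := ρ.act_mul v g h
  act_add v v' g := ρ.act_add v v' g
  act_smul k v g := ρ.act_smul k v g

/-- Isomorphism of representations: a linear and a group isomorphism compatible with the
actions. -/
def Isomorphic (ρ σ : Representation K) : Prop :=
  ∃ (α : ρ.V ≃ₗ[K] σ.V) (β : ρ.G ≃* σ.G), ∀ v g, α (ρ.act v g) = σ.act (α v) (β g)

end Representation

/-- First-order formulas of the two-sorted language, with module variables in `X` and group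
variables in `Y`.  `act [(x₁, u₁), …, (xₙ, uₙ)]` is the elementary formula
`x₁ ∘ u₁ + ⋯ + xₙ ∘ uₙ ≡ 0` of type (1), and `grp f` is the elementary formula `f ≡ 1` of
type (2). -/
inductive Formula (K : Type u) [Ring K] (X : Type v) (Y : Type w)
  | act (l : List (X × MonoidAlgebra K (FreeGroup Y)))
  | grp (f : FreeGroup Y)
  | neg (φ : Formula K X Y)
  | and (φ ψ : Formula K X Y)
  | or (φ ψ : Formula K X Y)
  | allX (x : X) (φ : Formula K X Y)
  | exX (x : X) (φ : Formula K X Y)
  | allY (y : Y) (φ : Formula K X Y)
  | exY (y : Y) (φ : Formula K X Y)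

variable {X : Type v} {Y : Type w}

/-- The value `v ∘ u` of an element `u = Σ k_f f` of the group algebra `K F(Y)` at `v : V`, under
the assignment `b : Y → G` of the group variables: `Σ k_f (v ∘ f(b))`. -/
noncomputable def evalAlg (ρ : Representation K) (b : Y → ρ.G) (v : ρ.V)
    (u : MonoidAlgebra K (FreeGroup Y)) : ρ.V :=
  Finsupp.sum u.coeff (fun f k => k • ρ.act v (FreeGroup.lift b f))

open Classical in
/-- Satisfaction of a formula in a representation under the assignments `a : X → V` and
`b : Y → G`. -/
def Formula.Sat (ρ : Representation K) : (X → ρ.V) → (Y → ρ.G) → Formula K X Y → Prop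
  | a, b, .act l => (l.map (fun p => evalAlg ρ b (a p.1) p.2)).sum = 0
  | _, b, .grp f => FreeGroup.lift b f = 1
  | a, b, .neg φ => ¬ Formula.Sat ρ a b φ
  | a, b, .and φ ψ => Formula.Sat ρ a b φ ∧ Formula.Sat ρ a b ψ
  | a, b, .or φ ψ => Formula.Sat ρ a b φ ∨ Formula.Sat ρ a b ψ
  | a, b, .allX x φ => ∀ v : ρ.V, Formula.Sat ρ (Function.update a x v) b φ
  | a, b, .exX x φ => ∃ v : ρ.V, Formula.Sat ρ (Function.update a x v) b φ
  | a, b, .allY y φ => ∀ g : ρ.G, Formula.Sat ρ a (Function.update b y g) φ
  | a, b, .exY y φ => ∃ g : ρ.G, Formula.Sat ρ a (Function.update b y g) φ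

/-- A formula holds in `ρ` if it is satisfied under every assignment. -/
def Formula.Holds (ρ : Representation K) (φ : Formula K X Y) : Prop :=
  ∀ (a : X → ρ.V) (b : Y → ρ.G), Formula.Sat ρ a b φ

/-- The formulas of action: built from elementary formulas of type (1) using `¬`, `∧`, `∨` and
quantifiers over module variables only. -/
inductive Formula.IsAction : Formula K X Y → Prop
  | act (l : List (X × MonoidAlgebra K (FreeGroup Y))) : IsAction (.act l)
  | neg {φ : Formula K X Y} : IsAction φ → IsAction (.neg φ)
  | and {φ ψ : Formula K X Y} : IsAction φ → IsAction ψ → IsAction (.and φ ψ)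
  | or {φ ψ : Formula K X Y} : IsAction φ → IsAction ψ → IsAction (.or φ ψ)
  | allX (x : X) {φ : Formula K X Y} : IsAction φ → IsAction (.allX x φ)
  | exX (x : X) {φ : Formula K X Y} : IsAction φ → IsAction (.exX x φ)

/-- `T'`: the class of all representations in which every formula of `T` holds. -/
def Models (T : Set (Formula K X Y)) : Set (Representation K) :=
  {ρ | ∀ φ ∈ T, Formula.Holds ρ φ}

/-- An abstract class: closed under isomorphism. -/
def IsAbstractClass (𝒳 : Set (Representation K)) : Prop :=
  ∀ ρ σ : Representation K, ρ.Isomorphic σ → ρ ∈ 𝒳 → σ ∈ 𝒳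

/-- Axiomatizable: defined by some set of first-order formulas. -/
def Axiomatizable (X : Type v) (Y : Type w) (𝒳 : Set (Representation K)) : Prop :=
  ∃ T : Set (Formula K X Y), 𝒳 = Models T

/-- Defined by some set of formulas of action. -/
def ActionDefinable (X : Type v) (Y : Type w) (𝒳 : Set (Representation K)) : Prop :=
  ∃ T : Set (Formula K X Y), (∀ φ ∈ T, φ.IsAction) ∧ 𝒳 = Models T

/-- Saturated: `ρ ∈ 𝒳` iff its faithful representation is in `𝒳`. -/
def Saturated (𝒳 : Set (Representation K)) : Prop :=
  ∀ ρ : Representation K, ρ ∈ 𝒳 ↔ ρ.faithful ∈ 𝒳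

/-- Right hereditary: closed under passing to subgroups of the acting group. -/
def RightHereditary (𝒳 : Set (Representation K)) : Prop :=
  ∀ ρ : Representation K, ρ ∈ 𝒳 → ∀ H : Subgroup ρ.G, ρ.restrict H ∈ 𝒳

/-! ### The class of representations with a nonzero fixed vector -/

/-- Representations `(V, G)` with a nonzero vector fixed by all of `G`. -/
def FixedVectorClass (K : Type u) [Ring K] : Set (Representation K) :=
  {ρ | ∃ v : ρ.V, v ≠ 0 ∧ ∀ g, ρ.act v g = v}

lemma fixed_abstract : IsAbstractClass (FixedVectorClass K) := by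
  rintro ρ σ ⟨α, β, h⟩ ⟨v, hv, hfix⟩
  refine ⟨α v, by simpa using hv, fun g => ?_⟩
  rw [← β.apply_symm_apply g, ← h, hfix]

lemma fixed_saturated : Saturated (FixedVectorClass K) := by
  intro ρ
  constructor
  · rintro ⟨v, hv, hfix⟩
    refine ⟨v, hv, fun g => ?_⟩
    induction g using QuotientGroup.induction_on with | H g =>
    exact hfix g
  · rintro ⟨v, hv, hfix⟩
    exact ⟨v, hv, fun g => hfix (QuotientGroup.mk g)⟩

lemma fixed_rightHereditary : RightHereditary (FixedVectorClass K) := by
  rintro ρ ⟨v, hv, hfix⟩ H
  exact ⟨v, hv, fun (g : H) => hfix g⟩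

@[simp] lemma evalAlg_single (ρ : Representation K) (b : Y → ρ.G) (v : ρ.V)
    (f : FreeGroup Y) (k : K) :
    evalAlg ρ b v (MonoidAlgebra.single f k) = k • ρ.act v (FreeGroup.lift b f) := by
  unfold evalAlg
  rw [MonoidAlgebra.coeff_single, Finsupp.sum_single_index]
  simp

lemma fixed_axiomatizable [Nonempty X] [Nonempty Y] :
    Axiomatizable X Y (FixedVectorClass K) := by
  obtain ⟨x⟩ := ‹Nonempty X›
  obtain ⟨y⟩ := ‹Nonempty Y›
  refine ⟨{.exX x (.and (.neg (.act [(x, MonoidAlgebra.single 1 1)]))
    (.allY y (.act [(x, MonoidAlgebra.single (FreeGroup.of y) 1),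
      (x, MonoidAlgebra.single 1 (-1))])))}, ?_⟩
  ext ρ
  simp only [FixedVectorClass, Models, Set.mem_ofPred_eq, Set.mem_singleton_iff, forall_eq,
    Formula.Holds, Formula.Sat, List.map_cons, List.map_nil, List.sum_cons, List.sum_nil,
    evalAlg_single, Function.update_self, FreeGroup.lift_apply_of, map_one, ρ.act_one, one_smul,
    add_zero, neg_smul]
  constructor
  · rintro ⟨v, hv, hfix⟩ a b
    exact ⟨v, hv, fun g => by rw [hfix]; simp⟩
  · intro h
    obtain ⟨v, hv, hfix⟩ := h (fun _ => 0) (fun _ => 1)
    refine ⟨v, hv, fun g => ?_⟩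
    have := hfix g
    rwa [← sub_eq_add_neg, sub_eq_zero] at this

/-! ### Formulas of action are local -/

/-- Every word involves finitely many variables. -/
lemma exists_finset_word (f : FreeGroup Y) :
    ∃ S : Finset Y, ∀ (G : Type u) [Group G] (b b' : Y → G), (∀ y ∈ S, b y = b' y) →
      FreeGroup.lift b f = FreeGroup.lift b' f := by
  classical
  induction f using FreeGroup.induction_on with
  | C1 => exact ⟨∅, fun G _ b b' _ => by simp⟩
  | of y => exact ⟨{y}, fun G _ b b' h => by simpa using h y (by simp)⟩
  | inv_of y ih =>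
    obtain ⟨S, hS⟩ := ih
    exact ⟨S, fun G _ b b' h => by rw [map_inv, map_inv, hS G b b' h]⟩
  | mul f g ihf ihg =>
    obtain ⟨S, hS⟩ := ihf
    obtain ⟨T, hT⟩ := ihg
    refine ⟨S ∪ T, fun G _ b b' h => ?_⟩
    rw [map_mul, map_mul, hS G b b' (fun y hy => h y (Finset.mem_union_left _ hy)),
      hT G b b' (fun y hy => h y (Finset.mem_union_right _ hy))]

lemma exists_finset_alg (u : MonoidAlgebra K (FreeGroup Y)) :
    ∃ S : Finset Y, ∀ (ρ : Representation K) (b b' : Y → ρ.G), (∀ y ∈ S, b y = b' y) →
      ∀ v, evalAlg ρ b v u = evalAlg ρ b' v u := by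
  classical
  choose S hS using exists_finset_word.{u} (Y := Y)
  refine ⟨u.coeff.support.biUnion S, fun ρ b b' h v => ?_⟩
  unfold evalAlg
  apply Finsupp.sum_congr
  intro f hf
  rw [hS f ρ.G b b' (fun y hy => h y (Finset.mem_biUnion.mpr ⟨f, hf, hy⟩))]

lemma exists_finset_list (l : List (X × MonoidAlgebra K (FreeGroup Y))) :
    ∃ S : Finset Y, ∀ (ρ : Representation K) (a : X → ρ.V) (b b' : Y → ρ.G),
      (∀ y ∈ S, b y = b' y) →
      (l.map (fun p => evalAlg ρ b (a p.1) p.2)).sum =
        (l.map (fun p => evalAlg ρ b' (a p.1) p.2)).sum := by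
  classical
  induction l with
  | nil => exact ⟨∅, fun ρ a b b' _ => rfl⟩
  | cons p l ih =>
    obtain ⟨S, hS⟩ := ih
    obtain ⟨T, hT⟩ := exists_finset_alg p.2
    refine ⟨S ∪ T, fun ρ a b b' h => ?_⟩
    simp only [List.map_cons, List.sum_cons]
    rw [hS ρ a b b' (fun y hy => h y (Finset.mem_union_left _ hy)),
      hT ρ b b' (fun y hy => h y (Finset.mem_union_right _ hy))]

/-- The truth value of a formula of action depends on finitely many group variables only. -/
lemma exists_finset_action {φ : Formula K X Y} (hφ : φ.IsAction) :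
    ∃ S : Finset Y, ∀ (ρ : Representation K) (a : X → ρ.V) (b b' : Y → ρ.G),
      (∀ y ∈ S, b y = b' y) → (Formula.Sat ρ a b φ ↔ Formula.Sat ρ a b' φ) := by
  classical
  induction hφ with
  | act l =>
    obtain ⟨S, hS⟩ := exists_finset_list l
    refine ⟨S, fun ρ a b b' h => ?_⟩
    simp only [Formula.Sat]
    rw [hS ρ a b b' h]
  | neg _ ih =>
    obtain ⟨S, hS⟩ := ih
    refine ⟨S, fun ρ a b b' h => ?_⟩
    simp only [Formula.Sat]
    rw [hS ρ a b b' h]
  | and _ _ ih ih' =>
    obtain ⟨S, hS⟩ := ih
    obtain ⟨T, hT⟩ := ih'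
    refine ⟨S ∪ T, fun ρ a b b' h => ?_⟩
    simp only [Formula.Sat]
    rw [hS ρ a b b' (fun y hy => h y (Finset.mem_union_left _ hy)),
      hT ρ a b b' (fun y hy => h y (Finset.mem_union_right _ hy))]
  | or _ _ ih ih' =>
    obtain ⟨S, hS⟩ := ih
    obtain ⟨T, hT⟩ := ih'
    refine ⟨S ∪ T, fun ρ a b b' h => ?_⟩
    simp only [Formula.Sat]
    rw [hS ρ a b b' (fun y hy => h y (Finset.mem_union_left _ hy)),
      hT ρ a b b' (fun y hy => h y (Finset.mem_union_right _ hy))]
  | allX x _ ih =>
    obtain ⟨S, hS⟩ := ih
    refine ⟨S, fun ρ a b b' h => ?_⟩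
    simp only [Formula.Sat]
    exact forall_congr' fun v => hS ρ _ b b' h
  | exX x _ ih =>
    obtain ⟨S, hS⟩ := ih
    refine ⟨S, fun ρ a b b' h => ?_⟩
    simp only [Formula.Sat]
    exact exists_congr fun v => hS ρ _ b b' h

lemma lift_coe {G : Type u} [Group G] (H : Subgroup G) (b : Y → H) (f : FreeGroup Y) :
    ((FreeGroup.lift b f : H) : G) = FreeGroup.lift (fun y => (b y : G)) f := by
  induction f using FreeGroup.induction_on with
  | C1 => simp
  | of y => simp
  | inv_of y ih => simp
  | mul f g ihf ihg => simp [ihf, ihg]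

lemma evalAlg_restrict (ρ : Representation K) (H : Subgroup ρ.G) (b : Y → H) (v : ρ.V)
    (u : MonoidAlgebra K (FreeGroup Y)) :
    evalAlg (ρ.restrict H) b v u = evalAlg ρ (fun y => (b y : ρ.G)) v u := by
  unfold evalAlg
  apply Finsupp.sum_congr
  intro f hf
  rw [← lift_coe]
  rfl

/-- The truth value of a formula of action does not change when the group is enlarged. -/
lemma sat_restrict {φ : Formula K X Y} (hφ : φ.IsAction) (ρ : Representation K)
    (H : Subgroup ρ.G) (a : X → ρ.V) (b : Y → H) :
    Formula.Sat (ρ.restrict H) a b φ ↔ Formula.Sat ρ a (fun y => (b y : ρ.G)) φ := by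
  classical
  induction hφ generalizing a with
  | act l =>
    simp only [Formula.Sat]
    have : (l.map (fun p => evalAlg (ρ.restrict H) b (a p.1) p.2)) =
        (l.map (fun p => evalAlg ρ (fun y => (b y : ρ.G)) (a p.1) p.2)) := by
      apply List.map_congr_left
      intro p _
      exact evalAlg_restrict ρ H b (a p.1) p.2
    rw [this]
    exact Iff.rfl
  | neg _ ih => simp only [Formula.Sat, ih]
  | and _ _ ih ih' => simp only [Formula.Sat, ih, ih']
  | or _ _ ih ih' => simp only [Formula.Sat, ih, ih']
  | allX x _ ih =>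
    simp only [Formula.Sat]
    exact forall_congr' fun v => ih _
  | exX x _ ih =>
    simp only [Formula.Sat]
    exact exists_congr fun v => ih _

/-- Classes defined by formulas of action are local: if all restrictions of `ρ` to finitely
generated subgroups are in the class, then so is `ρ`. -/
lemma local_of_actionDefinable {𝒳 : Set (Representation K)} (h : ActionDefinable X Y 𝒳)
    (ρ : Representation K) (hρ : ∀ H : Subgroup ρ.G, H.FG → ρ.restrict H ∈ 𝒳) : ρ ∈ 𝒳 := by
  classical
  obtain ⟨T, hT, rfl⟩ := h
  intro φ hφ a b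
  obtain ⟨S, hS⟩ := exists_finset_action (hT φ hφ)
  let H : Subgroup ρ.G := Subgroup.closure ((S.image b : Finset ρ.G) : Set ρ.G)
  have hH : H.FG := ⟨S.image b, rfl⟩
  let b' : Y → H := fun y => if hy : y ∈ S then ⟨b y, Subgroup.subset_closure (by
    simpa using ⟨y, hy, rfl⟩)⟩ else 1
  have h1 := hρ H hH φ hφ a b'
  rw [sat_restrict (hT φ hφ)] at h1
  rw [hS ρ a b (fun y => (b' y : ρ.G)) (fun y hy => by simp [b', hy])]
  exact h1

/-! ### The finitary symmetric group acting on finitely supported functions -/

/-- The group of permutations of `ι` with finite support. -/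
def finitaryPerm (ι : Type u) : Subgroup (Equiv.Perm ι) where
  carrier := {σ | {x | σ x ≠ x}.Finite}
  one_mem' := by simp
  mul_mem' := by
    intro a b ha hb
    refine (ha.union hb).subset ?_
    intro x hx
    simp only [Set.mem_ofPred_eq, Equiv.Perm.mul_apply, Set.mem_union] at hx ⊢
    by_contra hcon
    push Not at hcon
    apply hx
    rw [hcon.2, hcon.1]
  inv_mem' := by
    intro a ha
    refine Set.Finite.subset ha ?_
    intro x hx
    simp only [Set.mem_ofPred_eq] at hx ⊢
    intro h
    apply hx
    rw [Equiv.Perm.inv_eq_iff_eq, h]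

/-- The representation of the finitary symmetric group on finitely supported functions. -/
noncomputable def permRep (K : Type u) [Ring K] (ι : Type u) : Representation K where
  V := ι →₀ K
  G := finitaryPerm ι
  act v g := Finsupp.equivMapDomain (g : Equiv.Perm ι).symm v
  act_one v := by
    ext x
    simp
  act_mul v g h := by
    ext x
    simp
  act_add v v' g := by
    ext x
    simp
  act_smul k v g := by
    ext x
    simp

/-- The action on finitely supported functions, written out. -/
lemma permAct_apply {ι : Type u} (v : ι →₀ K) (g : Equiv.Perm ι) (x : ι) :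
    (Finsupp.equivMapDomain g.symm v) x = v (g x) := by
  simp

lemma permRep_notMem (K : Type u) [Ring K] (ι : Type u) [Infinite ι] :
    permRep K ι ∉ FixedVectorClass K := by
  classical
  intro h
  have h' : ∃ v : ι →₀ K, v ≠ 0 ∧ ∀ g : finitaryPerm ι,
    Finsupp.equivMapDomain (g : Equiv.Perm ι).symm v = v := h
  obtain ⟨v, hv, hfix⟩ := h'
  apply hv
  obtain ⟨m, hm⟩ := Infinite.exists_notMem_finset v.support
  rw [Finsupp.notMem_support_iff] at hm
  ext n
  have hswap : Equiv.swap n m ∈ finitaryPerm ι := by
    refine Set.Finite.subset (Set.toFinite {n, m}) ?_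
    intro x hx
    by_contra hcon
    simp only [Set.mem_insert_iff, Set.mem_singleton_iff, not_or] at hcon
    exact hx (Equiv.swap_apply_of_ne_of_ne hcon.1 hcon.2)
  have h1 := DFunLike.congr_fun (hfix ⟨Equiv.swap n m, hswap⟩) n
  rw [permAct_apply, Equiv.swap_apply_left, hm] at h1
  rw [← h1]
  rfl

lemma permRep_restrict_mem (K : Type u) [Ring K] [Nontrivial K] (ι : Type u) [Infinite ι]
    (H : Subgroup (finitaryPerm ι)) (hH : H.FG) :
    Representation.restrict (permRep K ι) H ∈ FixedVectorClass K := by
  classical
  obtain ⟨S, rfl⟩ := hH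
  -- a point outside the supports of all the generators
  have hfin : (⋃ s ∈ S, {x : ι | (s : Equiv.Perm ι) x ≠ x}).Finite :=
    Set.Finite.biUnion S.finite_toSet (fun s _ => s.2)
  obtain ⟨m, hm⟩ := Infinite.exists_notMem_finset hfin.toFinset
  simp only [Set.Finite.mem_toFinset, Set.mem_iUnion, Set.mem_ofPred_eq, not_exists,
    not_not] at hm
  have key : ∀ g ∈ Subgroup.closure (S : Set (finitaryPerm ι)), (g : Equiv.Perm ι) m = m := by
    intro g hg
    induction hg using Subgroup.closure_induction with
    | mem x hx => exact hm x hx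
    | one => simp
    | mul x y _ _ hx hy => simp [hx, hy]
    | inv x _ hx =>
      rw [InvMemClass.coe_inv, Equiv.Perm.inv_eq_iff_eq, hx]
  suffices h : ∃ v : ι →₀ K, v ≠ 0 ∧
      ∀ g : Subgroup.closure (S : Set (finitaryPerm ι)),
        Finsupp.equivMapDomain ((g : finitaryPerm ι) : Equiv.Perm ι).symm v = v from h
  refine ⟨Finsupp.single m 1, by simp, ?_⟩
  rintro ⟨g, hg⟩
  have hgm := key g hg
  ext x
  rw [permAct_apply]
  by_cases hx : x = m
  · subst hx
    rw [hgm]
  · rw [Finsupp.single_eq_of_ne hx, Finsupp.single_eq_of_ne]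
    intro h
    apply hx
    apply (g : Equiv.Perm ι).injective
    rw [h, hgm]

/-- **Main theorem.**  For every nontrivial ring `K` and all infinite sets `X`, `Y` of variables
there is an abstract class of representations over `K` which is axiomatizable, saturated and
right hereditary, but is not defined by any set of formulas of action. -/
theorem result (K : Type u) [Ring K] [Nontrivial K] (X : Type v) (Y : Type w) [Infinite X]
    [Infinite Y] :
    ∃ 𝒳 : Set (Representation K), IsAbstractClass 𝒳 ∧ Axiomatizable X Y 𝒳 ∧ Saturated 𝒳 ∧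
      RightHereditary 𝒳 ∧ ¬ ActionDefinable X Y 𝒳 := by
  refine ⟨FixedVectorClass K, fixed_abstract, fixed_axiomatizable, fixed_saturated,
    fixed_rightHereditary, fun h => ?_⟩
  exact permRep_notMem K (ULift.{u} ℕ) (local_of_actionDefinable h _
    (fun H hH => permRep_restrict_mem K _ H hH))

end Pool.Agent.Results.MP_98e941_al.NotActionDefinable
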